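import Pool.Agent.H.MP_391ee8_lc.Defs
import Pool.Agent.Lib.helper25.RelGr

namespace Pool.Agent.H.MP_391ee8_lc

open Pool.Agent.Lib.CX Finset Relation

variable {V : Type} [Fintype V]

theorem perfect (G : SimpleGraph V) (h : G.Colorable 2) : Perfect G := fun s => by
  classical
  have h2 : (G.induce s).Colorable 2 := h.of_hom (SimpleGraph.Embedding.induce s).toHom
  generalize G.induce s = H at *
  refine le_antisymm ?_ H.cliqueNum_le_chromaticNumber
  by_cases e : H = ⊥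
  · subst e
    cases isEmpty_or_nonempty s
    · simp
    · have : ({Classical.arbitrary s} : Finset s).card ≤ (⊥ : SimpleGraph s).cliqueNum :=
        SimpleGraph.IsClique.card_le_cliqueNum (tc := by simp)
      rw [SimpleGraph.chromaticNumber_bot]
      exact_mod_cast this
  · obtain ⟨u, v, a⟩ := SimpleGraph.ne_bot_iff_exists_adj.1 e
    have : ({u, v} : Finset s).card ≤ H.cliqueNum := SimpleGraph.IsClique.card_le_cliqueNum (tc := by simp [a])
    rw [card_pair a.ne] at this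
    exact h2.chromaticNumber_le.trans (by exact_mod_cast this)

theorem reach (G : SimpleGraph V) (k : ℕ) (f g : V → ℕ) (hf : IsCol G k f) (hg : IsCol G k g)
    (h : ∀ u v, G.Adj u v → f u = g u ∨ f v = g v) : ReflTransGen (Step G k) f g := by
  classical
  have c : ∀ S : Finset V, IsCol G k (S.piecewise g f) := fun S => ⟨fun v => by
    by_cases a : v ∈ S <;> simp [piecewise, a, hf.1, hg.1], fun u v e => by
    have := hf.2 u v e; have := hg.2 u v e; have := h u v e
    by_cases a : u ∈ S <;> by_cases b : v ∈ S <;> simp only [piecewise, a, b, if_true, if_false] <;> omega⟩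
  have : ∀ S : Finset V, ReflTransGen (Step G k) f (S.piecewise g f) := fun S => by
    induction S using Finset.induction_on with
    | empty => simpa using .refl
    | insert a S _ ih => exact ih.tail ⟨c _, c _, a, fun u hu => by simp [piecewise, hu]⟩
  simpa using this univ

abbrev W := ℕ × ℕ × Cl3 ℕ

def lit (p : W) : ℕ × Bool := litOf (p.2.2, p.2.1 - 8)
def L (p : W) (i : ℕ) : Prop :=
  (p.2.1 < 7 ∧ (i = p.2.1 ∨ (p.2.1 = p.1 ∧ i + p.1 = 1))) ∨ (p.2.1 = 7 ∧ (i = p.1 ∨ i = 2 ∨ i = 3 ∨ i = 4)) ∨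
    (8 ≤ p.2.1 ∧ p.2.1 < 11 ∧ (i + 6 = p.2.1 ∨ i = 5 + (lit p).2.toNat)) ∨ (p.2.1 = 11 ∧ (i = 5 ∨ i = 6))
instance (p q) : Decidable (L p q) := by unfold L; infer_instance
def R (p q : W) : Prop :=
  p.1 ≠ q.1 ∧ ((q.2.1 < 7 ∧ ¬L p q.2.1) ∨ (p.2.1 = 7 ∧ 8 ≤ q.2.1 ∧ q.2.1 < 11 ∧ p.2.2 = q.2.2) ∨
    (8 ≤ p.2.1 ∧ p.2.1 < 11 ∧ q.2.1 = 11 ∧ q.2.2.1.1 = (lit p).1))
instance (p q) : Decidable (R p q) := by unfold R; infer_instance
def vs (φ : List (Cl3 ℕ)) : List W := List.range 2 ×ˢ (List.range 7 ×ˢ [unit 0 true] ++ ([7, 8, 9, 10] ×ˢ φ ++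
  (List.range (3 * φ.length)).map fun x => (11, unit x true)))
def gr (φ : List (Cl3 ℕ)) : Gr := relGr (vs φ) fun e => R e.1 e.2
def c0 (p : W) : ℕ := if p.2.1 < 7 then p.2.1 else if p.2.1 = 7 then p.1 else if p.2.1 < 11 then p.2.1 - 6 else 5

theorem mem_vs {φ} {p : W} : p ∈ vs φ ↔ p.1 < 2 ∧ ((p.2.1 < 7 ∧ p.2.2 = unit 0 true) ∨
    (7 ≤ p.2.1 ∧ p.2.1 < 11 ∧ p.2.2 ∈ φ) ∨ (p.2.1 = 11 ∧ ∃ x < 3 * φ.length, unit x true = p.2.2)) := by
  obtain ⟨s, i, C⟩ := p
  refine List.pair_mem_product.trans (and_congr List.mem_range ?_)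
  simp only [List.mem_append]
  refine or_congr (List.pair_mem_product.trans (by simp)) (or_congr (List.pair_mem_product.trans ?_) ?_)
  · simp only [List.mem_cons, List.not_mem_nil, or_false, ← and_assoc]
    exact and_congr_left fun _ => by omega
  · simp only [List.mem_map, List.mem_range, Prod.mk.injEq]
    exact ⟨fun ⟨x, a, b, c⟩ => ⟨b.symm, x, a, c⟩, fun ⟨b, x, a, c⟩ => ⟨x, a, b.symm, c⟩⟩

def st (v : ℕ → Bool) (j : Cl3 ℕ → ℕ) (t : ℕ) (p : W) : ℕ :=
  if p.2.1 < 7 then p.2.1 else if p.2.1 = 7 then (if 3 ≤ t then 2 + j p.2.2 else p.1) else if p.2.1 < 11 then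
    (if 2 ≤ t ∧ v (lit p).1 = (lit p).2 then 5 + (lit p).2.toNat else p.2.1 - 6)
  else if 1 ≤ t then 6 - (v p.2.2.1.1).toNat else 5

theorem st_L (v j t p) (hp : p.2.1 < 12) (h2 : j p.2.2 < 3) : L p (st v j t p) := by
  have b3 := (v p.2.2.1.1).toNat_le
  simp only [st, L]
  split_ifs <;> omega

theorem st_ne (v j t p q) (hp : p.1 < 2 ∧ p.2.1 < 12) (h : R p q) (h2 : j p.2.2 < 3)
    (h1 : 3 ≤ t → p.2.1 = 7 → v (litOf (p.2.2, j p.2.2)).1 = (litOf (p.2.2, j p.2.2)).2) :
    st v j t p ≠ st v j t q := by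
  obtain ⟨h, ⟨a, b⟩ | ⟨a, b, c, d⟩ | ⟨a, b, c, d⟩⟩ := h
  · exact fun e => b (by have := st_L v j t p hp.2 h2; rwa [e, st, if_pos a] at this)
  · have : 3 ≤ t → q.2.1 - 8 = j p.2.2 → v (lit q).1 = (lit q).2 := fun k e => by rw [lit, e, ← d]; exact h1 k a
    simp only [st, a, c, show ¬q.2.1 < 7 by omega, show ¬q.2.1 = 7 by omega, lt_irrefl, if_true, if_false]
    by_cases e : v (lit q).1 = (lit q).2 <;> simp only [e, and_true, and_false, imp_false] at this ⊢ <;>
      split_ifs <;> omega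
  · simp only [st, b, c, d, show ¬p.2.1 < 7 by omega, show ¬p.2.1 = 7 by omega, if_true, if_false]
    cases v (lit p).1 <;> cases (lit p).2 <;> simp <;> (try split_ifs) <;> omega

theorem st_same (v j t p q) (h : R p q) : st v j t p = st v j (t + 1) p ∨ st v j t q = st v j (t + 1) q := by
  have : ∀ p : W, st v j t p ≠ st v j (t + 1) p → (t = 0 ∧ 11 ≤ p.2.1) ∨ (t = 1 ∧ 8 ≤ p.2.1 ∧ p.2.1 < 11) ∨
      (t = 2 ∧ p.2.1 = 7) := fun p => by
    simp only [st]
    by_cases e : v (lit p).1 = (lit p).2 <;> simp only [e, and_true, and_false] <;> split_ifs <;> omega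
  by_contra! n
  have a := this p n.1
  have b := this q n.2
  simp only [R] at h
  omega

theorem L_lt {p i} (h : L p i) (hp : p.1 < 2) : i < 7 := by
  have := (lit p).2.toNat_le
  simp only [L] at h; omega

theorem st3 (v j p) (h : st v j 3 p ≤ 1) : st v j 3 p = p.2.1 := by
  have b3 := (v p.2.2.1.1).toNat_le
  simp only [st] at *
  split_ifs at * <;> omega

theorem main (φ : List (Cl3 ℕ)) (hφ : ∀ C ∈ φ, ∀ x ∈ C.vars, x < 3 * φ.length) (G : SimpleGraph V) (g : V → W)
    (hg : Function.Injective g) (hT : ∀ p, p ∈ vs φ ↔ ∃ u, g u = p)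
    (hA : ∀ u v, G.Adj u v ↔ R (g u) (g v) ∨ R (g v) (g u)) :
    (G.Colorable 2 ∧ G ≠ ⊥ ∧ IsCol G 7 fun u => c0 (g u)) ∧ (Sat3 φ → ChiLe G 7 (fun u => c0 (g u)) 2) ∧
      (ChiLe G 7 (fun u => c0 (g u)) 6 → Sat3 φ) := by
  classical
  have hT' : ∀ u, g u ∈ vs φ := fun u => (hT _).2 ⟨u, rfl⟩
  have b1 : ∀ u, (g u).1 < 2 ∧ (g u).2.1 < 12 := fun u => by have := mem_vs.1 (hT' u); omega
  have mk : ∀ f : V → ℕ, (∀ u, f u < 7) → (∀ u w, R (g u) (g w) → f u ≠ f w) → IsCol G 7 f := fun f h1 h2 =>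
    ⟨h1, fun u w e => ((hA u w).1 e).elim (h2 u w) fun e => (h2 w u e).symm⟩
  have rc : ∀ f f' : V → ℕ, IsCol G 7 f → IsCol G 7 f' → (∀ u w, R (g u) (g w) → f u = f' u ∨ f w = f' w) →
      ReflTransGen (Step G 7) f f' := fun f f' h1 h2 h =>
    reach _ _ _ _ h1 h2 fun u w e => ((hA u w).1 e).elim (h u w) fun e => (h w u e).symm
  have col : ∀ v j t, (∀ C, j C < 3) → (3 ≤ t → ∀ C ∈ φ, v (litOf (C, j C)).1 = (litOf (C, j C)).2) →
      IsCol G 7 fun u => st v j t (g u) := fun v j t h1 h2 =>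
    mk _ (fun u => L_lt (st_L v j t _ (b1 u).2 (h1 _)) (b1 u).1) fun u w e => st_ne v j t _ _ (b1 u) e (h1 _)
      fun a b => h2 a _ (by have := mem_vs.1 (hT' u); simpa [b] using this.2)
  have s0 : ∀ v j, (fun u => c0 (g u)) = fun u => st v j 0 (g u) := fun v j => funext fun u => by simp [st, c0]
  have mF : ∀ s < 2, ∀ i < 7, (s, i, unit 0 true) ∈ vs φ := fun s a i b => mem_vs.2 ⟨a, .inl ⟨b, rfl⟩⟩
  have : Nonempty V := ⟨((hT _).1 (mF 0 (by simp) 0 (by simp))).choose⟩
  choose! s hs using fun p => (hT p).1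
  have aA : ∀ p ∈ vs φ, ∀ q ∈ vs φ, R p q → G.Adj (s p) (s q) := fun p hp q hq e => by
    rw [hA, hs p hp, hs q hq]; exact .inl e
  have c00 : IsCol G 7 fun u => c0 (g u) := by
    rw [s0 (fun _ => true) (fun _ => 0)]; exact col _ _ 0 (by simp) (by simp)
  refine ⟨⟨⟨SimpleGraph.Coloring.mk (fun u => ⟨(g u).1, (b1 u).1⟩) fun {u v} e => ?_⟩,
    SimpleGraph.ne_bot_iff_exists_adj.2 ⟨_, _, aA _ (mF 0 (by simp) 2 (by simp)) _ (mF 1 (by simp) 3 (by simp))
      (by simp [R, L])⟩, c00⟩, ?_, ?_⟩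
  · exact fun k => ((hA u v).1 e).elim (fun r => r.1 (by simpa using k)) fun r => r.1 (by simpa using k.symm)
  · rintro ⟨v, hv⟩
    simp only [ok_iff] at hv
    choose! j h1 h2 using hv
    let j' := fun C => if C ∈ φ then j C else 0
    have c := fun t => col v j' t (fun C => by simp only [j']; split <;> simp [*])
      fun _ C hC => by simpa [j', hC] using h2 C hC
    have r3 : ∀ t, ReflTransGen (Step G 7) (fun u => c0 (g u)) fun u => st v j' t (g u) := fun t => by
      induction t with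
      | zero => rw [s0 v j']
      | succ t ih => exact ih.trans (rc _ _ (c _) (c _) fun u w e => st_same v j' t _ _ e)
    have k := fun u => st3 v j' (g u)
    have c3 := c 3
    replace r3 := r3 3
    obtain ⟨f, hf⟩ : ∃ f : V → ℕ, ∀ u, st v j' 3 (g u) = f u := ⟨_, fun _ => rfl⟩
    simp only [hf] at k c3 r3
    have ne : ∀ u w, R (g u) (g w) → f u ≠ f w := fun u w e => c3.2 u w ((hA u w).2 (.inl e))
    have c4 : IsCol G 7 fun u => if (g u).1 = 1 ∧ f u = 1 then 0 else f u := mk _ (fun u => by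
      have := c3.1 u; split <;> omega) fun u w e => by
      have := ne u w e; have := k u; have := k w; have := b1 u; have := b1 w
      simp only [R, L] at e
      split <;> split <;> omega
    have c5 : IsCol G 7 fun u => if (g u).1 = 0 then 1 else if f u = 1 then 0 else f u := mk _ (fun u => by
      have := c3.1 u; split_ifs <;> omega) fun u w e => by
      have := e.1; have := b1 u; have := b1 w
      split_ifs <;> omega
    have c6 : IsCol G 7 fun u => 1 - (g u).1 := mk _ (fun u => by omega) fun u w e => by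
      have := e.1; have := b1 u; have := b1 w; omega
    refine ⟨_, ((r3.trans (rc _ _ c3 c4 fun u w e => ?_)).trans (rc _ _ c4 c5 fun u w e => ?_)).trans
      (rc _ _ c5 c6 fun u w e => ?_), (card_le_card (t := range 2) (image_subset_iff.2 fun u _ => ?_)).trans (by simp)⟩
    all_goals try have := e.1; have := b1 u; have := b1 w; split_ifs <;> omega
    exact mem_range.2 (by omega)
  · rintro ⟨f, h1, h2⟩
    by_contra n
    have lst : ∀ f, IsCol G 7 f → ∀ x, (∀ w, (g w).1 ≠ (g x).1 → (g w).2.1 < 7 → f w = (g w).2.1) → L (g x) (f x) :=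
      fun f h x k => by_contra fun e => by
      have m := hs _ (mF (1 - (g x).1) (by omega) _ (h.1 x))
      have := b1 x
      refine h.2 x (s (1 - (g x).1, f x, unit 0 true)) ((hA x _).2 (.inl ?_))
        (by rw [k (s _) (by rw [m]; simp only; omega) (by rw [m]; exact h.1 x), m])
      rw [m]
      exact ⟨by simp only; omega, .inl ⟨h.1 x, e⟩⟩
    have : IsCol G 7 f ∧ ∀ u, (g u).2.1 < 7 → f u = (g u).2.1 := by
      clear h2
      induction h1 with
      | refl => exact ⟨c00, fun u h => if_pos h⟩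
      | @tail f f' _ h ih =>
        obtain ⟨-, h3, w, h4⟩ := h
        refine ⟨h3, fun u hu => by_contra fun k => n ?_⟩
        obtain rfl : u = w := by_contra fun e => k (by rw [← h4 u e, ih.2 u hu])
        have l1 := lst f' h3 u fun w a b => by rw [← h4 w (by rintro rfl; exact a rfl), ih.2 w b]
        have l2 := fun p hp => hs p hp ▸ lst f ih.1 (s p) fun w _ => ih.2 w
        have := b1 u
        refine ⟨fun x => decide (f (s (1 - (g u).1, 11, unit x true)) = 5), fun C hC => (ok_iff _ _).2 ?_⟩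
        have m1 : (1 - (g u).1, 7, C) ∈ vs φ := mem_vs.2 ⟨by simp only; omega, .inr (.inl (by simp [hC]))⟩
        have a1 := h3.2 _ u ((hA _ u).2 (.inl (by rw [hs _ m1]; simp only [R, L] at l1 ⊢; simp; omega)))
        rw [← h4 _ (fun e => by rw [← e, hs _ m1] at hu; simp at hu)] at a1
        have a2 := l2 _ m1
        obtain ⟨j, j3, a3⟩ : ∃ j < 3, f (s (1 - (g u).1, 7, C)) = 2 + j :=
          ⟨f (s (1 - (g u).1, 7, C)) - 2, by simp only [L] at l1 a2; omega, by simp only [L] at l1 a2; omega⟩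
        have m2 : ((g u).1, 8 + j, C) ∈ vs φ := mem_vs.2 ⟨this.1, .inr (.inl ⟨by simp only; omega, by simp only; omega, hC⟩)⟩
        have m3 : (1 - (g u).1, 11, unit (litOf (C, j)).1 true) ∈ vs φ :=
          mem_vs.2 ⟨by simp only; omega, .inr (.inr ⟨rfl, _, hφ C hC _ (by
            interval_cases j <;> simp [litOf, Cl3.vars]), rfl⟩)⟩
        have a4 := ih.1.2 _ _ (aA _ m1 _ m2 (by simp only [R]; simp; omega))
        have a5 := ih.1.2 _ _ (aA _ m2 _ m3 (by simp only [R, lit]; simp [unit]; omega))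
        have a6 := l2 _ m2
        have a7 := l2 _ m3
        refine ⟨j, j3, ?_⟩
        simp only [L, lit, Nat.add_sub_cancel_left] at a6 a7
        generalize (litOf (C, j)).2 = b at *
        cases b <;> simp at a6 a7 ⊢ <;> omega
    have : range 7 ⊆ univ.image f := fun i hi => mem_image.2 ⟨s (0, i, unit 0 true), mem_univ _, by
      have e := hs _ (mF 0 (by simp) i (by simpa using hi))
      rw [this.2 _ (by rw [e]; simpa using hi), e]⟩
    have := card_le_card this
    simp only [card_range] at this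
    omega

def f0 (φ : List (Cl3 ℕ)) : List ℕ := (vs φ).dedup.map c0

theorem key (φ : List (Cl3 ℕ)) (hφ : ∀ C ∈ φ, ∀ x ∈ C.vars, x < 3 * φ.length) :
    ((gr φ).G.Colorable 2 ∧ (gr φ).G ≠ ⊥ ∧ IsCol (gr φ).G 7 fun u => (f0 φ).getD u 0) ∧
      (Sat3 φ → ChiLe (gr φ).G 7 (fun u => (f0 φ).getD u 0) 2) ∧
      (ChiLe (gr φ).G 7 (fun u => (f0 φ).getD u 0) 6 → Sat3 φ) := by
  have : (fun u : Fin (gr φ).n => (f0 φ).getD u 0) = fun u => c0 (relNm (vs φ) (fun e => R e.1 e.2) u) :=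
    funext (relNm_getD _ _ _ _)
  rw [this]
  exact main φ hφ _ _ (relNm_inj _ _) (relNm_range _ _) fun u v => (relGr_adj _ _ u v).trans (by
    simp only [decide_eq_true_eq, and_iff_right_iff_imp]
    rintro (h | h) e <;> exact h.1 (by rw [e]))

set_option synthInstance.maxSize 2000 in
theorem pt1 : PT vs := by unfold vs unit; fun_prop

set_option synthInstance.maxSize 2000 in
theorem pt2 : PT fun e : W × W => decide (R e.1 e.2) := by unfold R L lit litOf; fun_prop

theorem pt3 : PT c0 := by unfold c0; fun_prop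

theorem pt : PT fun φ => (gr φ, f0 φ) := by
  have := pt1
  have := pt3
  exact (PT.relGr pt1 (pt2.comp PT.snd')).pair (by unfold f0; fun_prop)

attribute [local irreducible] gr f0

abbrev Inst := {a : Gr × List ℕ // Perfect a.1.G ∧ a.1.G.Colorable 2 ∧ a.1.G ≠ ⊥ ∧ IsCol a.1.G 7 fun u => a.2.getD u 0}

def red (φ : List (Cl3 ℕ)) : Inst :=
  ⟨(gr (renum φ), f0 (renum φ)), perfect _ (key _ (renum_lt φ)).1.1, (key _ (renum_lt φ)).1⟩

theorem hard (p : ℕ) (h2 : 2 ≤ p) (h6 : p ≤ 6) :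
    NPHard fun a : Inst => ChiLe a.1.1.G 7 (fun u => a.1.2.getD u 0) p := by
  refine NPHard.of_sat3 red (PT.subtype (f := fun φ => (gr (renum φ), f0 (renum φ))) (pt.comp PT.renum) _) fun φ _ => ?_
  rw [← sat3_renum]
  have := key _ (renum_lt φ)
  exact ⟨fun h => let ⟨f, a, b⟩ := this.2.1 h; ⟨f, a, b.trans h2⟩, fun ⟨f, a, b⟩ => this.2.2 ⟨f, a, b.trans h6⟩⟩

end Pool.Agent.H.MP_391ee8_lc
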