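import Pool.Agent.Lib.lead.CXGraph

namespace Pool.Agent.H.MP_391ee8_lc

variable {V : Type}

/-- every induced subgraph has chromatic number equal to its clique number -/
def Perfect (G : SimpleGraph V) : Prop :=
  ∀ s : Set V, (G.induce s).chromaticNumber = (G.induce s).cliqueNum

/-- proper colouring with colours `0, …, k - 1` -/
def IsCol (G : SimpleGraph V) (k : ℕ) (f : V → ℕ) : Prop := (∀ v, f v < k) ∧ ∀ u v, G.Adj u v → f u ≠ f v

/-- recolouring a single vertex -/
def Step (G : SimpleGraph V) (k : ℕ) (f g : V → ℕ) : Prop :=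
  IsCol G k f ∧ IsCol G k g ∧ ∃ w, ∀ u, u ≠ w → f u = g u

/-- some colouring `k`-reachable from `f₀` uses at most `p` colours -/
def ChiLe [Fintype V] (G : SimpleGraph V) (k : ℕ) (f₀ : V → ℕ) (p : ℕ) : Prop :=
  ∃ f, Relation.ReflTransGen (Step G k) f₀ f ∧ (Finset.univ.image f).card ≤ p

end Pool.Agent.H.MP_391ee8_lc
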